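import Pool.Agent.TH490.CN.Dich

/-!
# The number of C*-norms on `C*(F_∞) ⊗ C*(F_∞)` (case (b))

The algebraic tensor product `C*(F_∞) ⊗ C*(F_∞)` has either at most one or exactly `2^ℵ₀` C*-norms.
So `S_2` is refutable in ZFC in case (b), and `S_1` holds as soon as there are two C*-norms.

Upper bound: every C*-norm is at most `‖a‖ ‖b‖` at `a ⊗ b` (write a self-adjoint contraction as the
mean of two unitaries), hence it is determined by its values on a countable set.

Lower bound: let `N₀` be a C*-norm and `N₂` a C*-seminorm with `N₀ x < N₂ x` for some `x`, which we may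
take in the algebraic span of the words in the first `n` generators. Let `φ_k` be the endomorphism of
`C*(F_∞)` which keeps the first `n` generators, maps the generator `n + k` to `-1` and the others to `1`.
For `S ⊆ ℕ` put `N_S = max (N₀, sup_{k ∈ S} N₂ ∘ (φ_k ⊗ id))`. With `q_k = (1 - g_{n+k}) / 2` the norm
`N_S` of `x (q_k ⊗ 1)` is at least `N₂ x` if `k ∈ S` and at most `N₀ x` if not.
-/

set_option autoImplicit false

open scoped TensorProduct Cardinal

namespace Pool.Agent.Results.MP_7f9919_an.FreeGroupDichotomy

open Pool.Agent.Helper965.CN Pool.Agent.TH490.CN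

/-- Let `A = C*(F_∞)`, the full C*-algebra of the free group on countably many generators. The set of
C*-norms on the algebraic tensor product `A ⊗ A` has at most one element or exactly `2 ^ ℵ₀`. -/
theorem result (A : Type) [CStarAlgebra A] (u : FreeGroup ℕ →* unitary A)
    (h : IsFullGroupCStar (FreeGroup ℕ) A u) :
    #{N : A ⊗[ℂ] A → ℝ // IsCStarNorm N} ≤ 1 ∨
      #{N : A ⊗[ℂ] A → ℝ // IsCStarNorm N} = 2 ^ ℵ₀ := by
  have := separable h
  exact dichotomy h

end Pool.Agent.Results.MP_7f9919_an.FreeGroupDichotomy
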